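import Pool.Agent.H260TZ.Uniq

/-!
The rank 10 algebra with vanishing leading coefficient, its numbers of subalgebras, and the
uniform rationality property.
-/

set_option autoImplicit false

namespace Pool.Agent.T2h51.TZ

open Polynomial Pool.Agent.H260TZ

/-- Structure constants of the algebra of rank 10. The basis is `u_0, u_1` (indices `0, 1`) and
`e_2, ..., e_9`; the only nonzero products of basis elements are `u_0 * e_b = e_{b'}` and
`u_1 * e_b = -(b - 2) e_{b'}`, where `b ↦ b'` exchanges `2` and `3`, `4` and `5`, `6` and `7`,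
`8` and `9`. -/
def cA : Fin 10 → Fin 10 → Fin 10 → ℤ := fun a b c =>
  if 2 ≤ b.val ∧ 2 ≤ c.val ∧ b.val / 2 = c.val / 2 ∧ b ≠ c then
    (if a.val = 0 then 1 else if a.val = 1 then -((b.val : ℤ) - 2) else 0)
  else 0

/-- The valuation ring of the unramified extension of degree `f` of the `p`-adic numbers. -/
abbrev WR (p : ℕ) [Fact p.Prime] (f : ℕ) : Type := WittVector p (GaloisField p f)

/-- The number of subalgebras of index `N` over the ring `R`. -/
noncomputable def cnt {d : ℕ} (c : Fin d → Fin d → Fin d → ℤ) (R : Type) [CommRing R]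
    (N : ℕ) : ℕ :=
  Nat.card {U : FinSub c R // Nat.card ((Fin d → R) ⧸ U.1) = N}

/-- The generating function of the numbers of subalgebras of index `q ^ n`. -/
noncomputable def gf {d : ℕ} (c : Fin d → Fin d → Fin d → ℤ) (R : Type) [CommRing R]
    (q : ℕ) : PowerSeries ℚ :=
  PowerSeries.mk fun n => (cnt c R (q ^ n) : ℚ)

/-- The product of the factors `1 - q ^ a * T ^ b`. -/
noncomputable def den (q : ℕ) (L : List (ℤ × ℕ)) : ℚ[X] :=
  (L.map fun x => 1 - C ((q : ℚ) ^ x.1) * X ^ x.2).prod

/-- Uniform rationality: for all but finitely many primes `p` there are finitely many pairs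
`(a, b)` with `b ≥ 1` and a bound `B` such that over all unramified extensions of the `p`-adic
numbers the zeta function, as a power series in `T = q ^ (-s)`, is a polynomial of degree at most
`B` divided by the product of the factors `1 - q ^ a * T ^ b`. -/
def UR {d : ℕ} (c : Fin d → Fin d → Fin d → ℤ) : Prop :=
  ∃ S : Set ℕ, S.Finite ∧ ∀ (p : ℕ) [Fact p.Prime], p ∉ S →
    ∃ (L : List (ℤ × ℕ)) (B : ℕ), (∀ x ∈ L, 1 ≤ x.2) ∧
      ∀ f : ℕ, 1 ≤ f → ∃ Nf : ℚ[X], Nf.natDegree ≤ B ∧
        gf c (WR p f) (p ^ f) * (den (p ^ f) L : PowerSeries ℚ) = (Nf : PowerSeries ℚ)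

/-- `1` or `2` -/
def rr (m : ℕ) : ℤ := if m = 0 then 1 else 2

/-- the limits of the numbers of split subalgebras of given type -/
def mu (α γ : ℕ) (τ : Fin 4 → ℕ) : ℤ :=
  if ∀ i, τ i ≤ α + γ then
    (∏ i, rr (τ i)) * (if γ = 0 then 1 else
      2 - ((Finset.univ.filter fun i => α < τ i).card : ℤ))
  else 0

/-- The limits of the numbers of subalgebras (Euler characteristics). -/
def chiA (n : ℕ) : ℤ :=
  ∑ α ∈ Finset.range (n + 1), ∑ γ ∈ Finset.range (n + 1),
    ∑ t ∈ Fintype.piFinset (fun _ : Fin 4 => Finset.range (n + 1)),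
      ∑ τ ∈ Fintype.piFinset (fun _ : Fin 4 => Finset.range (n + 1)),
        if 2 * α + γ + ∑ i, (2 * t i + τ i) = n then mu α γ τ else 0

/-- the projection to the `i`-th block `e_{2i+2}, e_{2i+3}` -/
def pm {R : Type} [CommRing R] (i : Fin 4) (x : Fin 10 → R) : Fin 10 → R :=
  fun b => if b.val / 2 = i.val + 1 then x b else 0

/-- the submodule contains the `i`-th components of its elements -/
def SplitAt {R : Type} [CommRing R] (i : Fin 4) (U : Submodule R (Fin 10 → R)) : Prop :=
  ∀ x ∈ U, pm i x ∈ U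

/-- the action condition for a lattice of the first two coordinates and a lattice of the `i`-th
block -/
def Stb {R : Type} [CommRing R] (i : Fin 4) (A M : Submodule R (R × R)) : Prop :=
  ∀ x ∈ A, ∀ w ∈ M, ((x.1 - ((2 * i.val + 1 : ℕ) : R) * x.2) * w.2,
    (x.1 - ((2 * i.val : ℕ) : R) * x.2) * w.1) ∈ M

/-- split systems of lattices of total index `N` -/
abbrev SP (R : Type) [CommRing R] (N : ℕ) : Type :=
  {z : Lat R × (Fin 4 → Lat R) //
    (∀ i, Stb i z.1.1 (z.2 i).1) ∧ idx z.1.1 * ∏ i, idx (z.2 i).1 = N}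

section
variable {R : Type} [CommRing R] [IsDomain R] (D : DV R)

/-- the points of the projective lines modulo powers of the uniformizer -/
abbrev PP : Type := Bool × (Σ n, D.Q n)

/-- the depth -/
def ex1 {D : DV R} (u : PP D) : ℕ := DV.ex u.1 u.2.1

/-- the coefficient pair of the linear form defining the primitive lattice -/
noncomputable def cf {D : DV R} (u : PP D) : R × R :=
  if u.1 then (1, D.lift u.2.2) else (D.t * D.lift u.2.2, 1)

/-- value of the first form -/
noncomputable def GG {D : DV R} (i : Fin 4) (u : PP D) : R :=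
  (cf u).2 + ((2 * i.val + 1 : ℕ) : R) * (cf u).1

/-- value of the second form -/
noncomputable def HH {D : DV R} (i : Fin 4) (u : PP D) : R :=
  (cf u).2 + ((2 * i.val : ℕ) : R) * (cf u).1

/-- the quadratic condition -/
noncomputable def ph {D : DV R} (i : Fin 4) (u m : PP D) : R :=
  (cf m).1 ^ 2 * GG i u - (cf m).2 ^ 2 * HH i u

/-- numbers of split stable systems of given type -/
noncomputable def Mc (α γ : ℕ) (τ : Fin 4 → ℕ) : ℕ :=
  Nat.card {z : PP D × (Fin 4 → PP D) // ex1 z.1 = γ ∧ (∀ i, ex1 (z.2 i) = τ i) ∧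
    ∀ i, τ i ≤ α + γ ∧ D.t ^ (τ i) ∣ D.t ^ α * ph i z.1 (z.2 i)}

/-- the number of points of depth `k` in the `i`-th block that are fixed up to depth `k` -/
noncomputable def nu (i : Fin 4) (u : PP D) (k : ℕ) : ℕ :=
  Nat.card {m : PP D // ex1 m = k ∧ D.t ^ k ∣ ph i u m}

end

open scoped Classical in
/-- the quadratic character -/
noncomputable def qc {F : Type} [Field F] (x : F) : ℤ :=
  if x = 0 then 0 else if IsSquare x then 1 else -1

end Pool.Agent.T2h51.TZ
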