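import Pool.Agent.T2h51.TZ.Def

/-! Statements of the tasks. -/

set_option autoImplicit false

namespace Pool.Agent.T2h51.TZ

open Polynomial Pool.Agent.H260TZ

/-- FIN: finiteness of the set of subalgebras of given index. Proof: if `U` has finite quotient
`V = R^d / U` of cardinality `N` then `t ^ N` kills `V` (the chain `t ^ j V` is strictly decreasing
until it is zero: if `t ^ (j+1) V = t ^ j V` then `t ^ j V = 0` by Nakayama, `R` being local with
non-units the multiples of `t`, field `dich`). So `U` contains `t ^ N R^d`, and the map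
`U ↦ image of U in (R / t ^ N)^d` is injective into the subsets of a finite set
(`DV.finQ`). -/
def S_FIN : Prop := ∀ {R : Type} [CommRing R] [IsDomain R] (_D : DV R) {d : ℕ}
    (c : Fin d → Fin d → Fin d → ℤ) (N : ℕ),
    Finite {U : FinSub c R // Nat.card ((Fin d → R) ⧸ U.1) = N}

/-- QP: indices are powers of `q`. Proof: as in FIN the quotient `V` is killed by a power of
`t`; every `t ^ j V / t ^ (j+1) V` is a finite module over the field `R / t` with `q` elements
(`D.card 1`). Or induction on `d` with `idx_fst` of `H260TZ/Basic.lean` (`Fin (d+1) → R` is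
`R × (Fin d → R)`) and `DV.idl_of_idx`, `DV.idx_span` of `H260TZ/Lat.lean` for `d = 1`. -/
def S_QP : Prop := ∀ {R : Type} [CommRing R] [IsDomain R] (D : DV R) {d : ℕ}
    (U : Submodule R (Fin d → R)), Finite ((Fin d → R) ⧸ U) →
    ∃ n : ℕ, Nat.card ((Fin d → R) ⧸ U) = D.q ^ n

/-- FREE: a group acting freely outside a set of fixed points. Proof: `G` acts on the
complement of `P` with trivial stabilizers, so its cardinality is `Nat.card G` times the number of
orbits. -/
def S_FREE : Prop := ∀ (G X : Type) [Group G] [Finite G] [MulAction G X] [Finite X]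
    (P : X → Prop), (∀ x, P x → ∀ g : G, g • x = x) →
    (∀ x, ¬ P x → ∀ g : G, g ≠ 1 → g • x ≠ x) →
    (Nat.card X : ℤ) ≡ (Nat.card {x : X // P x} : ℤ) [ZMOD (Nat.card G : ℤ)]

/-- TOR: all subalgebras are congruent to split subalgebras modulo `p ^ f - 1`. Proof: for a
fixed `i` the group `G = (GaloisField p f)ˣ` (order `p ^ f - 1`) acts on submodules of `R^10`,
`R = WR p f`: `g` multiplies the coordinates `b` with `b / 2 = i + 1` by
`WittVector.teichmuller p g` and fixes the other ones. This is an automorphism of the algebra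
(`mulR cA R x y` has zero coordinates `0, 1`, does not use the coordinates `b ≥ 2` of `x`, and maps
block `i` of `y` to block `i`), so `G` acts on
`{U : FinSub cA R // card = N ∧ ∀ j < i, SplitAt j U}`. If `g ≠ 1` fixes `U` then for `x ∈ U` the
element `g x - x = (teichmuller g - 1) • pm i x` is in `U` and `teichmuller g - 1` is a unit
(its zeroth coefficient is `g - 1 ≠ 0`, `WittVector.isUnit_iff...` / `isUnit_of_coeff_zero_ne_zero`),
so `SplitAt i U`; conversely if `SplitAt i U` then every `g` fixes `U`. Use S_FREE four times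
(take `S_FREE` as a hypothesis) and S_FIN for finiteness with `DV.witt` (hypothesis `S_FIN`). -/
def S_TOR : Prop := ∀ (p : ℕ) [Fact p.Prime] (f : ℕ), 1 ≤ f → ∀ N : ℕ,
    (cnt cA (WR p f) N : ℤ) ≡
      (Nat.card {U : FinSub cA (WR p f) // Nat.card ((Fin 10 → WR p f) ⧸ U.1) = N ∧
        ∀ i, SplitAt i U.1} : ℤ) [ZMOD ((p : ℤ) ^ f - 1)]

/-- SPL: split subalgebras are systems of lattices. Proof: the bijection sends `U` to
`({(x 0, x 1) : x ∈ U}, i ↦ {(x (2i+2), x (2i+3)) : x ∈ U})`; for split `U` one has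
`x ∈ U` iff all five components are in the five lattices; the index of `U` is the product of the
indices; `U` is closed under the product iff all `Stb` conditions hold, since for `x, y ∈ R^10`
the `i`-th component of `mulR cA R x y` is
`((x 0 - (2i+1) x 1) * y (2i+3), (x 0 - 2i x 1) * y (2i+2))` and its first two coordinates
vanish. -/
def S_SPL : Prop := ∀ {R : Type} [CommRing R] (N : ℕ), N ≠ 0 →
    Nat.card {U : FinSub cA R // Nat.card ((Fin 10 → R) ⧸ U.1) = N ∧ ∀ i, SplitAt i U.1} =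
      Nat.card (SP R N)

/-- STB: the stability condition in terms of the classification of lattices
(`DV.par`, `DV.pr`, `DV.K` of `H260TZ/Lat.lean`). Proof: write `d = cf u`, `c = cf m`,
`γ = ex1 u`, `τ = ex1 m`. The primitive lattice `pr` of `u` is
`{v : t ^ γ ∣ d.1 v.1 + d.2 v.2}`, spanned by `x₀ = (-d.2, d.1)` and `t ^ γ R²`; same for `m` with
`w₀ = (-c.2, c.1)`. The condition is: `t ^ τ ∣ t ^ α (c.1 (x.1 - (2i+1) x.2) w.2 +
c.2 (x.1 - 2i x.2) w.1)` for all `x`, `w` in the primitive lattices. For `x = x₀`, `w = w₀` this is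
the second condition (up to sign). For `w = w₀` and `x = t ^ γ x'` with
`x'.1 - (2i+1) x'.2, x'.1 - 2i x'.2` equal to `(1, 0)` or `(0, 1)` (possible, determinant one) it
says that `t ^ τ` divides `t ^ (α + γ) c.1 ^ 2` and `t ^ (α + γ) c.2 ^ 2`, and one of `c.1, c.2`
is one, so `τ ≤ α + γ`. The converse is clear. -/
def S_STB : Prop := ∀ {R : Type} [CommRing R] [IsDomain R] (D : DV R) (i : Fin 4)
    (α t : ℕ) (u m : PP D),
    Stb i (D.par (α, u)) (D.par (t, m)) ↔
      (ex1 m ≤ α + ex1 u ∧ D.t ^ (ex1 m) ∣ D.t ^ α * ph i u m)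

/-- SUM: the number of split systems as a sum over types. Proof: `DV.parE` is a bijection
between `ℕ × PP D` and the lattices, `idx (D.par (α, u)) = q ^ (2 α + ex1 u)` (`DV.idx_par`), the
condition is independent of the `t i` by STB (take `S_STB` as a hypothesis); the index condition
becomes `2 α + ex1 u + ∑ (2 t i + ex1 (m i)) = n`; all numbers are at most `n`. Sort by
`(α, γ, t, τ)`; all sets are finite (for fixed `τ` the set `{m : PP D // ex1 m = τ}` is
finite). -/
def S_SUM : Prop := ∀ {R : Type} [CommRing R] [IsDomain R] (D : DV R) (n : ℕ),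
    Nat.card (SP R (D.q ^ n)) =
      ∑ α ∈ Finset.range (n + 1), ∑ γ ∈ Finset.range (n + 1),
        ∑ t ∈ Fintype.piFinset (fun _ : Fin 4 => Finset.range (n + 1)),
          ∑ τ ∈ Fintype.piFinset (fun _ : Fin 4 => Finset.range (n + 1)),
            if 2 * α + γ + ∑ i, (2 * t i + τ i) = n then Mc D α γ τ else 0

/-- MC: reduction of `Mc` to the numbers `nu`. Proof: for fixed `u` the conditions on the
`m i` are independent. If `τ i ≤ α` there is no condition. If `τ i = α + k` with `k ≥ 1` the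
condition is `t ^ k ∣ ph i u m`, which depends only on the reduction of `m` modulo `t ^ k` (the
point of depth `k` of the same type `b` with the reduced `z`), and every point of depth `k ≥ 1` has
`q ^ α` lifts of depth `α + k`. (The values `D.lift` are arbitrary lifts, only their classes
matter.) -/
def S_MC : Prop := ∀ {R : Type} [CommRing R] [IsDomain R] (D : DV R) (α γ : ℕ)
    (τ : Fin 4 → ℕ), (∀ i, τ i ≤ α + γ) →
    Mc D α γ τ =
      (∏ i ∈ Finset.univ.filter (fun i => τ i ≤ α), Nat.card {m : PP D // ex1 m = τ i}) *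
      D.q ^ (α * (Finset.univ.filter fun i => α < τ i).card) *
      ∑ᶠ u : {u : PP D // ex1 u = γ},
        ∏ i ∈ Finset.univ.filter (fun i => α < τ i), nu (D := D) i u.1 (τ i - α)

/-- PP: the number of points of depth `k`: for `k ≥ 1` the type `true` gives `q ^ k` and the
type `false` gives `q ^ (k - 1)` (`DV.ex true n = n`, `DV.ex false n = n + 1`, `D.card n`). -/
def S_PP : Prop := ∀ {R : Type} [CommRing R] [IsDomain R] (D : DV R) (k : ℕ),
    Nat.card {m : PP D // ex1 m = k} = if k = 0 then 1 else D.q ^ (k - 1) * (D.q + 1)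

/-- HEN: away from the branch points. Proof: with `G = GG i u`, `H = HH i u` units: points
`m` of type `false` have `ph = t² z² G - H`, a unit, so do not count; for type `true` (depth `k`,
`z` modulo `t ^ k`) the condition is `z² H ≡ G`, i.e. `(z H)² ≡ G H` modulo `t ^ k`. A unit is a
square modulo `t ^ k` iff it is a square modulo `t` and then it has exactly two roots modulo
`t ^ k` (`2` is a unit; Hensel by Newton steps, or completeness of Witt vectors).
`WittVector.constantCoeff` is the reduction, its kernel is generated by `p`. -/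
def S_HEN : Prop := ∀ (p : ℕ) [Fact p.Prime] (f : ℕ) (hf : f ≠ 0), p ≠ 2 →
    ∀ (i : Fin 4) (u : PP (DV.witt p f hf)) (k : ℕ), 1 ≤ k →
    IsUnit (GG i u * HH i u) →
    (nu (D := DV.witt p f hf) i u k : ℤ) =
      1 + qc (WittVector.constantCoeff (GG i u * HH i u))

/-- BRG: the sum over the residue class of a root of the first form. Proof: points `u` of
type `false` have `GG` a unit. For type `true` put `g = GG i u`, so `HH i u = g - 1` is a unit and
`g` runs through the multiples of `t` modulo `t ^ γ`. Points `m` of type `false` do not count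
(`ph = t² w² g - HH` is a unit), for type `true`, `w` modulo `t ^ k`, the condition is
`g ≡ w² (g - 1)`, i.e. `g (1 - w²) ≡ - w²` modulo `t ^ k`; it forces `t ∣ w` (as `t ∣ g`), and for
given `w` divisible by `t` it determines `g` modulo `t ^ k`, a multiple of `t`. So the number of
pairs `(g, w)` is `q ^ (k - 1) * q ^ (γ - k)`. -/
def S_BRG : Prop := ∀ {R : Type} [CommRing R] [IsDomain R] (D : DV R),
    IsUnit (2 : R) → ∀ (i : Fin 4) (γ k : ℕ), 1 ≤ k → k ≤ γ →
    (∑ᶠ u : {u : PP D // ex1 u = γ ∧ D.t ∣ GG i u}, nu (D := D) i u.1 k) = D.q ^ (γ - 1)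

/-- BRH: the sum over the residue class of a root of the second form. Proof: points `u` of
type `false` have `HH` a unit. For type `true` put `h = HH i u`, so `GG i u = h + 1` is a unit and
`h` runs through the multiples of `t` modulo `t ^ γ`. Points `m` of type `true` do not count
(`ph = GG - w² h` is a unit), for type `false` (depth `k = n + 1`, `w` modulo `t ^ (k - 1)`) the
condition is `t² w² (h + 1) ≡ h`, i.e. `h (1 - t² w²) ≡ t² w²` modulo `t ^ k`, which determines `h`
modulo `t ^ k` as a multiple of `t`. Number of pairs `(h, w)`: `q ^ (k - 1) * q ^ (γ - k)`. -/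
def S_BRH : Prop := ∀ {R : Type} [CommRing R] [IsDomain R] (D : DV R),
    IsUnit (2 : R) → ∀ (i : Fin 4) (γ k : ℕ), 1 ≤ k → k ≤ γ →
    (∑ᶠ u : {u : PP D // ex1 u = γ ∧ D.t ∣ HH i u}, nu (D := D) i u.1 k) = D.q ^ (γ - 1)

/-- CLS: the sum over all points of depth `γ ≥ 1`, by residue classes (take `S_HEN`, `S_BRG`,
`S_BRH` as hypotheses). Proof: for points `u` of type `false` (there are `q ^ (γ - 1)`) all `GG`,
`HH` are one modulo `t`, so every `nu` is `2` by HEN. Points of type `true` are sorted by the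
residue `y` of `z` (each residue has `q ^ (γ - 1)` points): `GG i u`, `HH i u` have residues
`y + (2 i + 1)`, `y + 2 i`. As `p ≥ 11`, for given `y` at most one `i` has
`(y + 2i + 1) (y + 2 i) = 0`; if none in `I` does, HEN gives the constant product; if `i₀ ∈ I`
does, the other factors are constant by HEN and the sum of `nu i₀ u (k i₀)` over the class is
`q ^ (γ - 1)` by BRG or BRH (the class is exactly the set of `u` with `t ∣ GG i₀ u`, or
`t ∣ HH i₀ u`), and `1 + qc 0 = 1`. -/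
def S_CLS : Prop := ∀ (p : ℕ) [Fact p.Prime] (f : ℕ) (hf : f ≠ 0), 11 ≤ p →
    ∀ (I : Finset (Fin 4)) (γ : ℕ) (k : Fin 4 → ℕ), 1 ≤ γ → (∀ i ∈ I, 1 ≤ k i ∧ k i ≤ γ) →
    ((∑ᶠ u : {u : PP (DV.witt p f hf) // ex1 u = γ},
        ∏ i ∈ I, nu (D := DV.witt p f hf) i u.1 (k i) : ℕ) : ℤ) =
      ((p : ℤ) ^ f) ^ (γ - 1) * (2 ^ I.card + ∑ᶠ y : GaloisField p f, ∏ i ∈ I,
        (1 + qc ((y + ((2 * i.val + 1 : ℕ) : GaloisField p f)) *
            (y + ((2 * i.val : ℕ) : GaloisField p f)))))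

/-- FRO: Frobenius: the sum over the residue field modulo a power of two. Proof: let
`K = GaloisField p f`, `τ = x ↦ x ^ (p ^ (f / 2 ^ k))`, a field automorphism with `τ ^ (2 ^ k) = 1`.
The summand `ψ y` satisfies `ψ (τ y) = ψ y` (the coefficients are in the prime field, and
automorphisms preserve squares). The cyclic group of order `2 ^ k` generated by `τ` acts on `K`;
orbits of full size `2 ^ k` contribute multiples of `2 ^ k`; the other elements are exactly those
with `τ ^ (2 ^ (k-1)) y = y`, i.e. `y ^ (p ^ (f / 2)) = y`: the subfield `K₀` with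
`p ^ (f / 2) ≡ 1` modulo `2 ^ k` elements (a clean way: pair up by induction on `k`, or use the
action and `MulAction` orbits). For `y ∈ K₀` every nonzero element of `K₀` is a square in `K`
(`x ^ ((p ^ f - 1) / 2) = 1` for `x ∈ K₀ˣ`, since `(p ^ f - 1) / 2` is a multiple of
`p ^ (f / 2) - 1`), so the summand is `2 ^ |I|`, except at the `2 |I|` distinct roots
`-0, ..., -7` (those with `i ∈ I`), where it is `2 ^ (|I| - 1)`. Total modulo `2 ^ k`:
`(1 - 2 |I|) 2 ^ |I| + 2 |I| 2 ^ (|I| - 1)`. -/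
def S_FRO : Prop := ∀ (p : ℕ) [Fact p.Prime] (k f : ℕ), 11 ≤ p → 1 ≤ f → 1 ≤ k → 2 ^ k ∣ f →
    ∀ I : Finset (Fin 4),
    (∑ᶠ y : GaloisField p f, ∏ i ∈ I, (1 + qc ((y + ((2 * i.val + 1 : ℕ) : GaloisField p f)) *
            (y + ((2 * i.val : ℕ) : GaloisField p f))))) ≡
      2 ^ I.card * (1 - (I.card : ℤ)) [ZMOD 2 ^ k]

/-- Q1: `p ^ f` is one modulo `2 ^ k`. -/
def S_Q1 : Prop := ∀ (p k f : ℕ), Odd p → 1 ≤ k → 2 ^ k ∣ f → (p : ℤ) ^ f ≡ 1 [ZMOD 2 ^ k]

/-- MU: the numbers `Mc` modulo a power of two (take `S_MC`, `S_PP`, `S_CLS`, `S_FRO`, `S_Q1` as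
hypotheses). Proof: if some `τ i > α + γ` both sides vanish. Otherwise MC; `q = p ^ f ≡ 1`; the
number of points of depth `τ i` is `rr (τ i)` modulo `2 ^ k`; if `γ = 0` no `i` has `α < τ i` and
the sum over `u` is one; if `γ ≥ 1` use CLS with `I = {i : α < τ i}` and `k i = τ i - α ≤ γ`, and
FRO: the sum is `2 ^ |I| (2 - |I|)`, and `rr (τ i) = 2` for `i ∈ I`. -/
def S_MU : Prop := ∀ (p : ℕ) [Fact p.Prime] (k f : ℕ) (hf : f ≠ 0), 11 ≤ p → 1 ≤ k →
    2 ^ k ∣ f → ∀ (α γ : ℕ) (τ : Fin 4 → ℕ),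
    (Mc (DV.witt p f hf) α γ τ : ℤ) ≡ mu α γ τ [ZMOD 2 ^ k]

/-- CNT: the numbers of subalgebras modulo a power of two (take `S_TOR`, `S_SPL`, `S_SUM`,
`S_MU`, `S_Q1` as hypotheses). Combine; `(DV.witt p f hf).q = p ^ f`; `2 ^ k` divides
`p ^ f - 1`. -/
def S_CNT : Prop := ∀ (p : ℕ) [Fact p.Prime] (k f : ℕ), 11 ≤ p → 1 ≤ f → 2 ^ k ∣ f →
    ∀ n : ℕ, (cnt cA (WR p f) ((p ^ f) ^ n) : ℤ) ≡ chiA n [ZMOD 2 ^ k]

/-- SER: the limit series has a pole of order eight at one. With `P α = 1 + 2 ∑_{τ=1}^α T^τ`,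
so `(1 - T) P α = 1 + T - 2 T ^ (α + 1)`, the sum over `τ` of `mu α γ τ * T ^ (∑ τ i)` is
`P α ^ 4` for `γ = 0` and `P β ^ 3 (4 P α - 2 P β)` for `γ ≥ 1`, `β = α + γ` (with `S = P β - P α`
it is `∑_j C(4, j) (P α) ^ (4 - j) S ^ j (2 - j) = 2 (P α + S) ^ 4 - 4 S (P α + S) ^ 3`), and the
sum over `t` gives `(1 - T ^ 2) ^ (-4)`. So
`F = ∑ chiA n T ^ n = (1 - T ^ 2) ^ (-4) ∑_β T ^ β (P β) ^ 3 Y β`,
`Y β = T ^ β P β + ∑_{α < β} T ^ α (4 P α - 2 P β)`, and by induction
`(1 + T) Y β = 2 - (1 + T) T ^ β + 2 T ^ (2 β + 1)`.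
Hence `(1 - T ^ 2) ^ 4 (1 - T) ^ 3 (1 + T) F = ∑_β z (1 + T - 2 T z) ^ 3 (2 - (1 + T) z + 2 T z ^ 2)`
with `z = T ^ β`, which is `∑_{k=0}^5 c_k(T) / (1 - T ^ (k + 1))`. So one can take
`E = (1 + T) ^ 5 ∏_{k=2}^6 (1 + T + ... + T ^ (k-1))`, `E(1) = 32 * 720 = 23040`, and
`A = ∑_k c_k ∏_{j ∈ {1..6}, j ≠ k+1} (1 + ... + T ^ (j-1))`, `A(1) = 2496`. (First coefficients of
`F`: 1, 2, 15, 28, 83, 170, 365, 656, 1222.) -/
def S_SER : Prop := ∃ A E : ℤ[X], E.eval 1 = 23040 ∧ A.eval 1 = 2496 ∧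
    (PowerSeries.mk chiA) * (1 - PowerSeries.X) ^ 8 * (E : PowerSeries ℤ) = (A : PowerSeries ℤ)

/-- ANA: the value of the zeta function at an integer from its rational form as a power
series (take `S_QP` as a hypothesis; finiteness of the sets of given index follows from
summability or from `S_FIN`). Proof: for large `σ` and `T = q ^ (-σ)`, sorting the sum in `ZVal` by
index gives `∑ cnt (q ^ n) T ^ n = P(T) / Q(T)` (HasSum over `ℝ`, nonnegative terms). Multiplying
by the polynomial `den` gives `Nf(T) = den(T) P(T) / Q(T)` for infinitely many `T`, so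
`Nf * Q = den * P` in `ℚ[X]`; evaluate at `q ^ (-s)`, where `den` does not vanish because
`1 - q ^ (a - b s) ≠ 0`. Compare `H260TZ/Uniq.lean`, `zval_unique`. -/
def S_ANA : Prop := ∀ {R : Type} [CommRing R] [IsDomain R] (D : DV R) {d : ℕ}
    (c : Fin d → Fin d → Fin d → ℤ) (L : List (ℤ × ℕ)) (Nf : ℚ[X]),
    (∀ x ∈ L, 1 ≤ x.2) →
    gf c R D.q * (den D.q L : PowerSeries ℚ) = (Nf : PowerSeries ℚ) →
    ∀ (s : ℤ) (v : ℚ), (∀ x ∈ L, x.1 ≠ (x.2 : ℤ) * s) → ZVal c R D.q s v →
    v = (1 - (D.q : ℚ)⁻¹) ^ d *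
      (Nf.eval ((D.q : ℚ) ^ (-s)) / (den D.q L).eval ((D.q : ℚ) ^ (-s)))

/-- VAN: convergence of the coefficients of polynomials from convergence of the values at
convergent distinct points. Proof: the Vandermonde matrices converge to an invertible one; inverse
by the adjugate and the determinant. -/
def S_VAN : Prop := ∀ (n : ℕ) (θ : ℕ → Fin n → ℚ_[2]) (t : Fin n → ℚ_[2])
    (y : ℕ → Fin n → ℚ_[2]) (w : Fin n → ℚ_[2]), Function.Injective t →
    (∀ i, Filter.Tendsto (fun j => θ j i) Filter.atTop (nhds (t i))) →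
    (∀ i, Filter.Tendsto (fun j => ∑ k : Fin n, y j k * θ j i ^ (k : ℕ)) Filter.atTop
      (nhds (w i))) →
    ∃ y' : Fin n → ℚ_[2], (∀ k, Filter.Tendsto (fun j => y j k) Filter.atTop (nhds (y' k))) ∧
      ∀ i, ∑ k : Fin n, y' k * t i ^ (k : ℕ) = w i

/-- BRI: the limit argument (take `S_VAN` as a hypothesis). Work in `ℚ_[2]`. Let `m` be the
length of `L`. Integrality: `Nf j` has 2-integral coefficients since `a j n` are integers and
`den (q j) L` has coefficients in `ℤ[1/q]`, `q j` odd for large `j`. As `j → ∞` the coefficients of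
`den (q j) L` tend to those of `D₁ = ∏ (1 - X ^ b)` and those of `Nf j` to those of
`N∞ = (mk χ) * D₁`, a polynomial of degree `≤ B`. From the hypothesis on `χ`:
`N∞ (1 - X) ^ 9 E = A D₁`, `(1 - X) ^ m ∣ D₁`, `E(1) ≠ 0`, so `(1 - X) ^ (m - 9) ∣ N∞` (natural
subtraction). Write `Nf j = ∑_{k ≤ B} n_k(j) (X - 1) ^ k`; then `n_k(j) → n_k(∞)`, the coefficients
of `N∞`, and `n_k(∞) = 0` for `k < m - 9`. For an integer `s` outside a finite set put
`θ_j(s) = (q ^ (-s) - 1) / (q - 1) → -s` and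
`Π_j(s) = ∏ (1 - q ^ (a - b s)) / (q - 1) → Π(s) = ∏ (b s - a) ≠ 0` (for an integer `e`,
`(q ^ e - 1) / (q - 1) → e` as `q → 1`). The expression in the last hypothesis is
`q ^ (-10) (q - 1) ^ (10 - m) ∑_k n_k(j) (q - 1) ^ k θ_j(s) ^ k / Π_j(s)`. So
`∑_{k ≤ B} y_k(j) θ_j(s) ^ k → Π(s) N(s) / D(s)` with `y_k(j) = n_k(j) (q j - 1) ^ (k + 10 - m)`
(integer exponent). By VAN at `B + 1` integers `s`, `y_k(j) → y_k`. For `k + 10 > m` the limit
is `0` (bounded times a null sequence), for `k + 10 = m` it is `n_k(∞) = 0`. Hence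
`N(s) ∏ (b s - a) = D(s) W(s)` for infinitely many integers `s`, with
`W = ∑_{k + 10 < m} y_k (-X) ^ k` over `ℚ_[2]`, of degree `≤ m - 11`; compare degrees (if `m ≤ 10`
then `W = 0` and `N = 0`). -/
def S_BRI : Prop := ∀ (L : List (ℤ × ℕ)) (B : ℕ), (∀ x ∈ L, 1 ≤ x.2) →
    ∀ (q : ℕ → ℕ) (a : ℕ → ℕ → ℤ) (Nf : ℕ → ℚ[X]) (χ : ℕ → ℤ) (A E : ℤ[X]) (N D : ℚ[X])
      (H : Set ℤ), H.Finite → (∀ j, 2 ≤ q j) →
      (∀ k : ℕ, ∃ j₀, ∀ j, j₀ ≤ j → (q j : ℤ) ≡ 1 [ZMOD 2 ^ k]) →
      (∀ n k : ℕ, ∃ j₀, ∀ j, j₀ ≤ j → a j n ≡ χ n [ZMOD 2 ^ k]) →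
      (∀ j, (Nf j).natDegree ≤ B) →
      (∀ j, (PowerSeries.mk fun n => (a j n : ℚ)) * (den (q j) L : PowerSeries ℚ) =
        (Nf j : PowerSeries ℚ)) →
      E.eval 1 ≠ 0 →
      (PowerSeries.mk χ) * (1 - PowerSeries.X) ^ 9 * (E : PowerSeries ℤ) = (A : PowerSeries ℤ) →
      D ≠ 0 →
      (∀ s : ℤ, s ∉ H → D.eval (s : ℚ) ≠ 0 ∧ ∀ ε : ℝ, 0 < ε → ∃ j₀, ∀ j, j₀ ≤ j →
        ‖(((1 - (q j : ℚ)⁻¹) ^ 10 *
            ((Nf j).eval ((q j : ℚ) ^ (-s)) / (den (q j) L).eval ((q j : ℚ) ^ (-s))) -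
          N.eval (s : ℚ) / D.eval (s : ℚ) : ℚ) : ℚ_[2])‖ < ε) →
      N = 0 ∨ N.natDegree + 11 ≤ D.natDegree

/-- DEG: the conditional theorem (take `S_CNT`, `S_SER`, `S_ANA`, `S_BRI` as hypotheses).
Proof: from `IsTopZeta` with `ℓ = 2` and `UR` choose a prime `p ≥ 11` outside both finite sets,
get `e`, `L`, `B`; put `f_j = e * 2 ^ j`, `q j = p ^ f_j`, `a j n = cnt cA (WR p f_j) (q j ^ n)`,
`Nf j` from `UR`; enlarge the finite set `H` by the `s` with `a = b s` for some `(a, b) ∈ L`; for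
`s ∉ H` and `ε` the hypothesis of `IsTopZeta` with `f = 2 ^ j` gives `v` with `ZVal`, and ANA
computes `v`. `(1 - X) ^ 9 = (1 - X) ^ 8 (1 - X)` for the series. -/
def S_DEG : Prop := UR cA → ∀ N D : ℚ[X], IsTopZeta cA N D →
    N = 0 ∨ N.natDegree + 11 ≤ D.natDegree

end Pool.Agent.T2h51.TZ
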